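import Mathlib
import Pool.Agent.TN.Main
import Pool.Agent.TN.Sym
import Pool.Agent.TN.VCount
import Pool.Agent.TN.VRect

/-!
# Partition numbers: pairs of bodies with a lattice cell between them
-/

set_option autoImplicit false

open MeasureTheory Set
open scoped Pointwise

namespace Pool.Agent.Results.MP_c15520_co.CellNorms

/-- Convex bodies. -/
def Body {n : ℕ} (F : Set (EuclideanSpace ℝ (Fin n))) : Prop :=
  IsCompact F ∧ Convex ℝ F ∧ (interior F).Nonempty

/-- The diameter of `F` in the norm with unit ball `G`. -/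
noncomputable def Diam {n : ℕ} (F G : Set (EuclideanSpace ℝ (Fin n))) : ℝ :=
  sSup ((fun p : EuclideanSpace ℝ (Fin n) × EuclideanSpace ℝ (Fin n) =>
    gauge G (p.1 - p.2)) '' (F ×ˢ F))

/-- `F` is a union of `N` sets of smaller diameter, in the norm with unit ball `G`. -/
def Parts {n : ℕ} (F G : Set (EuclideanSpace ℝ (Fin n))) (N : ℕ) : Prop :=
  ∃ A : Fin N → Set (EuclideanSpace ℝ (Fin n)), (⋃ i, A i) = F ∧ ∀ i, ∃ c : ℝ, c < Diam F G ∧
    ∀ x ∈ A i, ∀ y ∈ A i, gauge G (x - y) ≤ c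

/-- Centrally symmetric convex bodies. -/
def SBody {n : ℕ} (K : Set (EuclideanSpace ℝ (Fin n))) : Prop :=
  Body K ∧ ∀ x ∈ K, -x ∈ K

/-- `K + L = ℝ ^ n`. -/
def Covers {n : ℕ} (K : Set (EuclideanSpace ℝ (Fin n)))
    (L : Submodule ℤ (EuclideanSpace ℝ (Fin n))) : Prop :=
  ∀ x : EuclideanSpace ℝ (Fin n), ∃ k ∈ K, ∃ l ∈ L, x = k + l

/-- The cell of the origin: the points of space to which no point of `L` is nearer than `0`. -/
def Cell {n : ℕ} (L : Submodule ℤ (EuclideanSpace ℝ (Fin n))) :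
    Set (EuclideanSpace ℝ (Fin n)) :=
  {x | ∀ l ∈ L, ‖x‖ ≤ ‖x - l‖}

/-- Affine images of the cube `[0, 1] ^ n`. -/
def Parallelepiped {n : ℕ} (G : Set (EuclideanSpace ℝ (Fin n))) : Prop :=
  ∃ (A : EuclideanSpace ℝ (Fin n) ≃ₗ[ℝ] EuclideanSpace ℝ (Fin n))
    (v : EuclideanSpace ℝ (Fin n)),
    G = (fun x => A x + v) '' {x | ∀ i, 0 ≤ x i ∧ x i ≤ 1}

variable {n : ℕ}

lemma sym {K : Set (EuclideanSpace ℝ (Fin n))} (h : Body K) (hs : ∀ x ∈ K, -x ∈ K) :
    Pool.Agent.Rog.SymBody K := ⟨h.1, h.2.1, h.2.2, hs⟩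

lemma exists_ne (hn : 1 ≤ n) {F : Set (EuclideanSpace ℝ (Fin n))} (hF : Body F) :
    ∃ x ∈ F, ∃ y ∈ F, x ≠ y := by
  by_contra hcon
  push Not at hcon
  obtain ⟨o, ho⟩ := hF.2.2
  have : Nonempty (Fin n) := ⟨⟨0, hn⟩⟩
  have h1 : F ⊆ {o} := fun z hz => hcon z hz o (interior_subset ho)
  have h2 := interior_mono h1 ho
  rw [interior_singleton] at h2
  exact h2

lemma gauge_pos' {G : Set (EuclideanSpace ℝ (Fin n))} (hG : Body G)
    (hGs : ∀ x ∈ G, -x ∈ G) {v : EuclideanSpace ℝ (Fin n)} (hv : v ≠ 0) : 0 < gauge G v := by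
  have h0 : G ∈ nhds (0 : EuclideanSpace ℝ (Fin n)) := by
    have hS := sym hG hGs
    obtain ⟨o, ho⟩ := hG.2.2
    have h1 : IsOpen ((fun x => (2 : ℝ) • x + o) ⁻¹' interior G) :=
      isOpen_interior.preimage (by fun_prop)
    refine Filter.mem_of_superset (h1.mem_nhds (by simpa using ho)) ?_
    intro x hx
    have h2 := Pool.Agent.TN.half_sub_mem hS (interior_subset hx) (interior_subset ho)
    simpa [smul_smul] using h2
  exact gauge_pos (absorbent_nhds_zero h0)
    (NormedSpace.isVonNBounded_of_isBounded ℝ hG.1.isBounded) |>.2 hv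

/-- Bound for the partition number by a lattice covering. -/
lemma general (n N : ℕ) (hn : 1 ≤ n) (F G K : Set (EuclideanSpace ℝ (Fin n)))
    (L : Submodule ℤ (EuclideanSpace ℝ (Fin n))) [DiscreteTopology L] [IsZLattice ℝ L]
    (hF : Body F) (hG : Body G) (hGs : ∀ x ∈ G, -x ∈ G) (hK : Body K) (hKs : ∀ x ∈ K, -x ∈ K)
    (hcov : ∀ x : EuclideanSpace ℝ (Fin n), ∃ k ∈ K, ∃ l ∈ L, x = k + l)
    (hKG : ∀ k ∈ K, gauge G ((2 : ℝ) • k) ≤ Diam F G)
    (hvol : volume.real (F + K) < (N + 1) * ZLattice.covolume L) : Parts F G N := by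
  have hS := sym hK hKs
  obtain ⟨c, hc0, hc1, A, hA, hAd⟩ := Pool.Agent.TN.main L hF.1 hS hcov hvol
  have hd : 0 < Diam F G := by
    obtain ⟨k, hk, hk0⟩ : ∃ k ∈ K, k ≠ 0 := by
      obtain ⟨x, hx, y, hy, hxy⟩ := exists_ne hn hK
      by_cases h0 : x = 0
      · exact ⟨y, hy, fun h => hxy (h0.trans h.symm)⟩
      · exact ⟨x, hx, h0⟩
    refine lt_of_lt_of_le ?_ (hKG k hk)
    exact gauge_pos' hG hGs (smul_ne_zero (by norm_num) hk0)
  refine ⟨A, hA, fun i => ⟨c * Diam F G, by nlinarith, fun x hx y hy => ?_⟩⟩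
  obtain ⟨k, hk, hxy⟩ := hAd i x hx y hy
  rw [hxy, mul_comm 2 c, ← smul_smul, gauge_smul_of_nonneg hc0.le, smul_eq_mul]
  exact mul_le_mul_of_nonneg_left (hKG k hk) hc0.le

lemma gauge_le {G : Set (EuclideanSpace ℝ (Fin n))} (hG : Body G) (hGs : ∀ x ∈ G, -x ∈ G)
    {v : EuclideanSpace ℝ (Fin n)} (h : gauge G v ≤ 1) : v ∈ G := by
  have hS := sym hG hGs
  have h0 : (0 : EuclideanSpace ℝ (Fin n)) ∈ G := Pool.Agent.PNR.zero_mem hS
  rcases eq_or_ne v 0 with rfl | hv
  · exact h0
  have hp := gauge_pos' hG hGs hv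
  have h1 : G ∈ nhds (0 : EuclideanSpace ℝ (Fin n)) := by
    obtain ⟨o, ho⟩ := hG.2.2
    have h1 : IsOpen ((fun x => (2 : ℝ) • x + o) ⁻¹' interior G) :=
      isOpen_interior.preimage (by fun_prop)
    refine Filter.mem_of_superset (h1.mem_nhds (by simpa using ho)) ?_
    intro x hx
    have h2 := Pool.Agent.TN.half_sub_mem hS (interior_subset hx) (interior_subset ho)
    simpa [smul_smul] using h2
  have h3 : v ∈ closure G := (gauge_le_one_iff_mem_closure hG.2.1 h1).1 h
  rwa [hG.1.isClosed.closure_eq] at h3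

lemma diam_smul (F G : Set (EuclideanSpace ℝ (Fin n))) {s : ℝ} (hs : 0 < s) :
    Diam (s • F) G = s * Diam F G := by
  unfold Diam
  rw [← smul_eq_mul, ← Real.sSup_smul_of_nonneg hs.le]
  congr 1
  ext r
  constructor
  · rintro ⟨⟨_, _⟩, ⟨⟨x, hx, rfl⟩, ⟨y, hy, rfl⟩⟩, rfl⟩
    refine ⟨gauge G (x - y), ⟨(x, y), ⟨hx, hy⟩, rfl⟩, ?_⟩
    change s • gauge G (x - y) = gauge G (s • x - s • y)
    rw [← smul_sub, gauge_smul_of_nonneg hs.le]
  · rintro ⟨_, ⟨⟨x, y⟩, ⟨hx, hy⟩, rfl⟩, rfl⟩
    refine ⟨(s • x, s • y), ⟨Set.smul_mem_smul_set hx, Set.smul_mem_smul_set hy⟩, ?_⟩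
    change gauge G (s • x - s • y) = s • gauge G (x - y)
    rw [← smul_sub, gauge_smul_of_nonneg hs.le]

lemma parts_smul {F G : Set (EuclideanSpace ℝ (Fin n))} {s : ℝ} (hs : 0 < s) {N : ℕ}
    (h : Parts (s • F) G N) : Parts F G N := by
  obtain ⟨A, hA, hd⟩ := h
  refine ⟨fun i => s⁻¹ • A i, ?_, fun i => ?_⟩
  · rw [← Set.smul_set_iUnion, hA, smul_smul, inv_mul_cancel₀ hs.ne', one_smul]
  · obtain ⟨c, hc, hcA⟩ := hd i
    rw [diam_smul F G hs] at hc
    refine ⟨s⁻¹ * c, ?_, ?_⟩
    · rw [inv_mul_lt_iff₀ hs]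
      exact hc
    · rintro _ ⟨x, hx, rfl⟩ _ ⟨y, hy, rfl⟩
      change gauge G (s⁻¹ • x - s⁻¹ • y) ≤ _
      rw [← smul_sub, gauge_smul_of_nonneg (inv_nonneg.2 hs.le), smul_eq_mul]
      exact mul_le_mul_of_nonneg_left (hcA x hx y hy) (inv_nonneg.2 hs.le)

lemma diam_facts (hn : 1 ≤ n) {F G : Set (EuclideanSpace ℝ (Fin n))} (hF : Body F) (hG : Body G)
    (hGs : ∀ x ∈ G, -x ∈ G) :
    0 < Diam F G ∧ ∀ x ∈ F, ∀ y ∈ F, gauge G (x - y) ≤ Diam F G := by
  have hS := sym hG hGs
  have h1 : G ∈ nhds (0 : EuclideanSpace ℝ (Fin n)) := by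
    obtain ⟨o, ho⟩ := hG.2.2
    have h1 : IsOpen ((fun x => (2 : ℝ) • x + o) ⁻¹' interior G) :=
      isOpen_interior.preimage (by fun_prop)
    refine Filter.mem_of_superset (h1.mem_nhds (by simpa using ho)) ?_
    intro x hx
    have h2 := Pool.Agent.TN.half_sub_mem hS (interior_subset hx) (interior_subset ho)
    simpa [smul_smul] using h2
  have hcg : Continuous (gauge G) := continuous_gauge hG.2.1 h1
  have hbdd : BddAbove ((fun p : EuclideanSpace ℝ (Fin n) × EuclideanSpace ℝ (Fin n) =>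
      gauge G (p.1 - p.2)) '' (F ×ˢ F)) :=
    ((hF.1.prod hF.1).image (by fun_prop)).bddAbove
  have hle : ∀ x ∈ F, ∀ y ∈ F, gauge G (x - y) ≤ Diam F G := fun x hx y hy =>
    le_csSup hbdd ⟨(x, y), ⟨hx, hy⟩, rfl⟩
  refine ⟨?_, hle⟩
  obtain ⟨x, hx, y, hy, hxy⟩ := exists_ne hn hF
  exact lt_of_lt_of_le (gauge_pos' hG hGs (sub_ne_zero.2 hxy)) (hle x hx y hy)

lemma not_translate {F K : Set (EuclideanSpace ℝ (Fin n))}
    (h : ∀ v : EuclideanSpace ℝ (Fin n), F ≠ (fun x => x + v) '' K) :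
    ∀ v : EuclideanSpace ℝ (Fin n), ∃ x, ¬ (x ∈ F ↔ x - v ∈ K) := by
  intro v
  by_contra hcon
  push Not at hcon
  apply h v
  ext x
  rw [hcon x]
  constructor
  · exact fun hx => ⟨x - v, hx, by simp⟩
  · rintro ⟨y, hy, rfl⟩
    simpa using hy

/-- The statement for a covering of the space by a lattice of translates of `K`. -/
lemma covering (n : ℕ) (hn : 1 ≤ n) (F G K : Set (EuclideanSpace ℝ (Fin n)))
    (L : Submodule ℤ (EuclideanSpace ℝ (Fin n))) [DiscreteTopology L] [IsZLattice ℝ L]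
    (hF : Body F) (hG : SBody G) (hK : SBody K) (hcov : Covers K L)
    (hKG : (2 : ℝ) • K ⊆ Diam F G • G) :
    (∀ N : ℕ, volume.real (F + K) < (N + 1) * ZLattice.covolume L → Parts F G N) ∧
    (∀ (lam : ℝ) (N : ℕ), 0 ≤ lam → F - F ⊆ (2 * lam) • K →
      (1 + lam) ^ n * volume.real K < (N + 1) * ZLattice.covolume L → Parts F G N) ∧
    (F - F ⊆ (2 : ℝ) • K → volume.real K < (1 + 1 / 2 ^ n) * ZLattice.covolume L →
      Parts F G (2 ^ n)) ∧
    (F - F ⊆ (2 : ℝ) • K → volume.real K = ZLattice.covolume L →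
      (∀ v : EuclideanSpace ℝ (Fin n), F ≠ (fun x => x + v) '' K) → Parts F G (2 ^ n - 1)) := by
  have hS := sym hK.1 hK.2
  have hFn : F.Nonempty := hF.2.2.mono interior_subset
  obtain ⟨hd, -⟩ := diam_facts hn hF hG.1 hG.2
  have hKG' : ∀ k ∈ K, gauge G ((2 : ℝ) • k) ≤ Diam F G := by
    intro k hk
    obtain ⟨g, hg, hgk⟩ := hKG (Set.smul_mem_smul_set hk)
    have e : (2 : ℝ) • k = Diam F G • g := hgk.symm
    rw [e, gauge_smul_of_nonneg hd.le, smul_eq_mul]
    have := gauge_le_one_of_mem hg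
    nlinarith
  have hgen : ∀ N : ℕ, volume.real (F + K) < (N + 1) * ZLattice.covolume L → Parts F G N :=
    fun N h => general n N hn F G K L hF hG.1 hG.2 hK.1 hK.2 hcov hKG' h
  have hlam : ∀ (lam : ℝ) (N : ℕ), 0 ≤ lam → F - F ⊆ (2 * lam) • K →
      (1 + lam) ^ n * volume.real K < (N + 1) * ZLattice.covolume L → Parts F G N := by
    intro lam N h0 hFK hvol
    refine hgen N (lt_of_le_of_lt (Pool.Agent.TN.vol_add_le hn hF.1 hF.2.1 hFn hS h0 ?_) hvol)
    intro x hx y hy
    obtain ⟨k, hk, hkxy⟩ := hFK (Set.sub_mem_sub hx hy)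
    exact ⟨k, hk, hkxy.symm⟩
  refine ⟨hgen, hlam, ?_, ?_⟩
  · intro hFK hvol
    refine hlam 1 (2 ^ n) zero_le_one (by rw [mul_one]; exact hFK) ?_
    have h2 : (0 : ℝ) < 2 ^ n := by positivity
    have h3 := mul_lt_mul_of_pos_left hvol h2
    have h4 : (2 : ℝ) ^ n * ((1 + 1 / 2 ^ n) * ZLattice.covolume L) =
        (2 ^ n + 1) * ZLattice.covolume L := by field_simp
    push_cast
    rw [show (1 : ℝ) + 1 = 2 by norm_num, ← h4]
    exact h3
  · intro hFK htile hne
    apply hgen
    have h1 := Pool.Agent.TN.vol_add_lt' hn hF.1 hF.2.1 hFn hS (by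
      intro x hx y hy
      obtain ⟨k, hk, hkxy⟩ := hFK (Set.sub_mem_sub hx hy)
      exact ⟨k, hk, hkxy.symm⟩) (not_translate hne)
    rw [htile] at h1
    have h2 : ((2 ^ n - 1 : ℕ) : ℝ) + 1 = 2 ^ n := by
      have h3 : (2 ^ n - 1 : ℕ) + 1 = 2 ^ n := Nat.sub_add_cancel Nat.one_le_two_pow
      exact_mod_cast h3
    rw [h2]
    exact h1

/-- Norms whose unit ball is a lattice tile. -/
lemma tile (n : ℕ) (hn : 1 ≤ n) (F G : Set (EuclideanSpace ℝ (Fin n)))
    (L : Submodule ℤ (EuclideanSpace ℝ (Fin n))) [DiscreteTopology L] [IsZLattice ℝ L]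
    (hF : Body F) (hG : SBody G) (hcov : Covers G L)
    (hvol : volume.real G = ZLattice.covolume L) :
    Parts F G (2 ^ n) ∧
    ((∀ (r : ℝ) (v : EuclideanSpace ℝ (Fin n)), 0 < r → F ≠ (fun x => r • x + v) '' G) →
      Parts F G (2 ^ n - 1)) := by
  obtain ⟨hd, hle⟩ := diam_facts hn hF hG.1 hG.2
  set d := Diam F G with hdd
  have hs : 0 < 2 / d := by positivity
  have hD : Diam ((2 / d) • F) G = 2 := by
    rw [diam_smul F G hs, ← hdd]
    field_simp
  have hF' : Body ((2 / d) • F) := by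
    refine ⟨hF.1.smul _, hF.2.1.smul _, ?_⟩
    rw [interior_smul₀ hs.ne']
    exact hF.2.2.smul_set
  have hFK : (2 / d) • F - (2 / d) • F ⊆ (2 : ℝ) • G := by
    rintro _ ⟨_, ⟨x, hx, rfl⟩, _, ⟨y, hy, rfl⟩, rfl⟩
    refine ⟨(1 / d) • (x - y), gauge_le hG.1 hG.2 ?_, ?_⟩
    · rw [gauge_smul_of_nonneg (by positivity), smul_eq_mul, one_div, inv_mul_le_iff₀ hd,
        mul_one]
      exact hle x hx y hy
    · change (2 : ℝ) • (1 / d) • (x - y) = (2 / d) • x - (2 / d) • y
      rw [← smul_sub, smul_smul]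
      congr 1
      ring
  obtain ⟨-, -, r1, r2⟩ := covering n hn ((2 / d) • F) G G L hF' hG hG hcov (by rw [hD])
  have hcv : 0 < ZLattice.covolume L := ZLattice.covolume_pos L
  refine ⟨parts_smul hs (r1 hFK ?_), fun hne => parts_smul hs (r2 hFK hvol ?_)⟩
  · rw [hvol]
    have : 0 < 1 / (2 : ℝ) ^ n * ZLattice.covolume L := by positivity
    linarith
  · intro v hv
    refine hne (d / 2) ((d / 2) • v) (by positivity) ?_
    ext x
    have h1 : x ∈ F ↔ (2 / d) • x ∈ (2 / d) • F := (Set.smul_mem_smul_set_iff₀ hs.ne' F x).symm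
    rw [h1, hv]
    constructor
    · rintro ⟨g, hg, hgx⟩
      refine ⟨g, hg, ?_⟩
      change g + v = (2 / d) • x at hgx
      change (d / 2) • g + (d / 2) • v = x
      rw [← smul_add, hgx, smul_smul]
      have e : d / 2 * (2 / d) = 1 := by field_simp
      rw [e, one_smul]
    · rintro ⟨g, hg, hgx⟩
      refine ⟨g, hg, ?_⟩
      change (d / 2) • g + (d / 2) • v = x at hgx
      change g + v = (2 / d) • x
      rw [← hgx, ← smul_add, smul_smul]
      have e : 2 / d * (d / 2) = 1 := by field_simp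
      rw [e, one_smul]

lemma diam_affine (F G : Set (EuclideanSpace ℝ (Fin n))) {r : ℝ} (hr : 0 < r)
    (v : EuclideanSpace ℝ (Fin n)) :
    Diam ((fun x => r • x + v) '' F) G = r * Diam F G := by
  unfold Diam
  rw [← smul_eq_mul, ← Real.sSup_smul_of_nonneg hr.le]
  congr 1
  ext t
  constructor
  · rintro ⟨⟨_, _⟩, ⟨⟨x, hx, rfl⟩, ⟨y, hy, rfl⟩⟩, rfl⟩
    refine ⟨gauge G (x - y), ⟨(x, y), ⟨hx, hy⟩, rfl⟩, ?_⟩
    change r • gauge G (x - y) = gauge G (r • x + v - (r • y + v))
    rw [add_sub_add_right_eq_sub, ← smul_sub, gauge_smul_of_nonneg hr.le]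
  · rintro ⟨_, ⟨⟨x, y⟩, ⟨hx, hy⟩, rfl⟩, rfl⟩
    refine ⟨(r • x + v, r • y + v), ⟨⟨x, hx, rfl⟩, ⟨y, hy, rfl⟩⟩, ?_⟩
    change gauge G (r • x + v - (r • y + v)) = r • gauge G (x - y)
    rw [add_sub_add_right_eq_sub, ← smul_sub, gauge_smul_of_nonneg hr.le]

lemma parts_affine {F G : Set (EuclideanSpace ℝ (Fin n))} {r : ℝ} (hr : 0 < r)
    (v : EuclideanSpace ℝ (Fin n)) {N : ℕ} (h : Parts F G N) :
    Parts ((fun x => r • x + v) '' F) G N := by
  obtain ⟨A, hA, hd⟩ := h
  refine ⟨fun i => (fun x => r • x + v) '' A i, ?_, fun i => ?_⟩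
  · rw [← Set.image_iUnion, hA]
  · obtain ⟨c, hc, hcA⟩ := hd i
    refine ⟨r * c, ?_, ?_⟩
    · rw [diam_affine F G hr v]
      exact mul_lt_mul_of_pos_left hc hr
    · rintro _ ⟨x, hx, rfl⟩ _ ⟨y, hy, rfl⟩
      change gauge G (r • x + v - (r • y + v)) ≤ _
      rw [add_sub_add_right_eq_sub, ← smul_sub, gauge_smul_of_nonneg hr.le, smul_eq_mul]
      exact mul_le_mul_of_nonneg_left (hcA x hx y hy) hr.le

lemma gauge_image (T : EuclideanSpace ℝ (Fin n) ≃ₗ[ℝ] EuclideanSpace ℝ (Fin n))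
    (V : Set (EuclideanSpace ℝ (Fin n))) (x : EuclideanSpace ℝ (Fin n)) :
    gauge (T '' V) (T x) = gauge V x := by
  unfold gauge
  congr 1
  ext r
  refine and_congr_right fun _ => ?_
  constructor
  · rintro ⟨_, ⟨v, hv, rfl⟩, h⟩
    refine ⟨v, hv, T.injective ?_⟩
    change T (r • v) = T x
    rw [map_smul]
    exact h
  · rintro ⟨v, hv, h⟩
    refine ⟨T v, ⟨v, hv, rfl⟩, ?_⟩
    change r • T v = T x
    rw [← map_smul]
    exact congrArg T h

lemma diam_image (T : EuclideanSpace ℝ (Fin n) ≃ₗ[ℝ] EuclideanSpace ℝ (Fin n))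
    (F V : Set (EuclideanSpace ℝ (Fin n))) : Diam (T '' F) (T '' V) = Diam F V := by
  unfold Diam
  congr 1
  ext t
  constructor
  · rintro ⟨⟨_, _⟩, ⟨⟨x, hx, rfl⟩, ⟨y, hy, rfl⟩⟩, rfl⟩
    refine ⟨(x, y), ⟨hx, hy⟩, ?_⟩
    change gauge V (x - y) = gauge (T '' V) (T x - T y)
    rw [← map_sub, gauge_image]
  · rintro ⟨⟨x, y⟩, ⟨hx, hy⟩, rfl⟩
    refine ⟨(T x, T y), ⟨⟨x, hx, rfl⟩, ⟨y, hy, rfl⟩⟩, ?_⟩
    change gauge (T '' V) (T x - T y) = gauge V (x - y)
    rw [← map_sub, gauge_image]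

lemma parts_image (T : EuclideanSpace ℝ (Fin n) ≃ₗ[ℝ] EuclideanSpace ℝ (Fin n))
    {F V : Set (EuclideanSpace ℝ (Fin n))} {N : ℕ} (h : Parts F V N) :
    Parts (T '' F) (T '' V) N := by
  obtain ⟨A, hA, hd⟩ := h
  refine ⟨fun i => T '' A i, ?_, fun i => ?_⟩
  · rw [← Set.image_iUnion, hA]
  · obtain ⟨c, hc, hcA⟩ := hd i
    refine ⟨c, ?_, ?_⟩
    · rw [diam_image]
      exact hc
    · rintro _ ⟨x, hx, rfl⟩ _ ⟨y, hy, rfl⟩
      rw [← map_sub, gauge_image]
      exact hcA x hx y hy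

/-- The cell is a union of `2 ^ n - 1` sets of smaller diameter, unless it is a box. -/
lemma cell_parts (L : Submodule ℤ (EuclideanSpace ℝ (Fin n)))
    [DiscreteTopology L] [IsZLattice ℝ L] :
    (∃ A : Fin (2 ^ n - 1) → Set (EuclideanSpace ℝ (Fin n)), (⋃ i, A i) = Cell L ∧
      ∀ i, ∃ c : ℝ, c < 2 ∧ ∀ x ∈ A i, ∀ z ∈ A i, gauge (Cell L) (x - z) ≤ c) ∨
    ∃ A : EuclideanSpace ℝ (Fin n) ≃ₗ[ℝ] EuclideanSpace ℝ (Fin n),
      Cell L = A '' {x | ∀ i, |x i| ≤ 1 / 2} := by
  by_cases H : ∀ a ∈ L, (∀ s, Pool.Agent.TN.Split L s → inner ℝ s a = 0) → a = 0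
  · exact Or.inr (Pool.Agent.TN.rect_image H)
  · left
    push Not at H
    obtain ⟨a0, ha0, hs, h0⟩ := H
    obtain ⟨a, b, y, T⟩ := Pool.Agent.TN.exists_tri_of (L := L) ⟨a0, ha0, h0, hs⟩
    exact Pool.Agent.TN.self_parts T

/-- The unit cube. -/
def Cube (n : ℕ) : Set (EuclideanSpace ℝ (Fin n)) := {x | ∀ i, 0 ≤ x i ∧ x i ≤ 1}

lemma cube_body (n : ℕ) : Body (Cube n) := by
  have hcont : ∀ i, Continuous fun x : EuclideanSpace ℝ (Fin n) => x i := fun i => by fun_prop
  refine ⟨?_, ?_, ?_⟩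
  · refine Metric.isCompact_of_isClosed_isBounded ?_ ?_
    · have : Cube n = ⋂ i, {x : EuclideanSpace ℝ (Fin n) | 0 ≤ x i ∧ x i ≤ 1} := by
        ext x
        simp [Cube]
      rw [this]
      exact isClosed_iInter fun i => (isClosed_le continuous_const (hcont i)).inter
        (isClosed_le (hcont i) continuous_const)
    · refine (Metric.isBounded_closedBall (x := (0 : EuclideanSpace ℝ (Fin n)))
        (r := Real.sqrt n)).subset ?_
      intro x hx
      rw [mem_closedBall_zero_iff, EuclideanSpace.norm_eq]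
      apply Real.sqrt_le_sqrt
      calc ∑ i, ‖x i‖ ^ 2 ≤ ∑ _i : Fin n, (1 : ℝ) := by
            refine Finset.sum_le_sum fun i _ => ?_
            rw [Real.norm_eq_abs, sq_abs]
            have := hx i
            nlinarith
        _ = n := by simp
  · intro x hx y hy s t hs ht hst i
    have h1 := hx i
    have h2 := hy i
    have e : (s • x + t • y) i = s * x i + t * y i := rfl
    rw [e]
    constructor
    · exact add_nonneg (mul_nonneg hs h1.1) (mul_nonneg ht h2.1)
    · have h3 := mul_le_mul_of_nonneg_left h1.2 hs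
      have h4 := mul_le_mul_of_nonneg_left h2.2 ht
      linarith
  · have h1 : IsOpen {x : EuclideanSpace ℝ (Fin n) | ∀ i, 0 < x i ∧ x i < 1} := by
      have : {x : EuclideanSpace ℝ (Fin n) | ∀ i, 0 < x i ∧ x i < 1} =
          ⋂ i, {x : EuclideanSpace ℝ (Fin n) | 0 < x i ∧ x i < 1} := by
        ext x
        simp
      rw [this]
      exact isOpen_iInter_of_finite fun i => (isOpen_lt continuous_const (hcont i)).inter
        (isOpen_lt (hcont i) continuous_const)
    refine ⟨WithLp.toLp 2 (fun _ => (1 / 2 : ℝ)), interior_maximal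
      (fun x hx i => ⟨(hx i).1.le, (hx i).2.le⟩) h1 ?_⟩
    intro i
    change (0 : ℝ) < 1 / 2 ∧ (1 / 2 : ℝ) < 1
    norm_num

/-- The cube in a norm other than its own. -/
lemma cube_parts (hn : 1 ≤ n) {G : Set (EuclideanSpace ℝ (Fin n))} (hG : SBody G)
    (h : ∃ x, gauge G x ≤ Diam (Cube n) G ∧ ∃ i, 1 < x i) :
    Parts (Cube n) G (2 ^ n - 1) := by
  classical
  obtain ⟨hd, hle⟩ := diam_facts hn (cube_body n) hG.1 hG.2
  set d := Diam (Cube n) G with hdd
  have hG0 : G ∈ nhds (0 : EuclideanSpace ℝ (Fin n)) := by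
    obtain ⟨o, ho⟩ := hG.1.2.2
    have h1 : IsOpen ((fun x => (2 : ℝ) • x + o) ⁻¹' interior G) :=
      isOpen_interior.preimage (by fun_prop)
    refine Filter.mem_of_superset (h1.mem_nhds (by simpa using ho)) ?_
    intro x hx
    have h2 := Pool.Agent.TN.half_sub_mem (sym hG.1 hG.2) (interior_subset hx)
      (interior_subset ho)
    simpa [smul_smul] using h2
  have hadd : ∀ x y, gauge G (x + y) ≤ gauge G x + gauge G y := fun x y =>
    gauge_add_le hG.1.2.1 (absorbent_nhds_zero hG0) x y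
  -- the cube `[-1, 1] ^ n`
  have hQ : ∀ (ρ : ℝ), 0 ≤ ρ → ∀ x : EuclideanSpace ℝ (Fin n), (∀ i, |x i| ≤ ρ) →
      gauge G x ≤ ρ * d := by
    intro ρ hρ x hx
    rcases eq_or_lt_of_le hρ with h0 | h0
    · have : x = 0 := by
        ext i
        have := hx i
        rw [← h0] at this
        simpa using this
      rw [this, gauge_zero, ← h0, zero_mul]
    · set p : EuclideanSpace ℝ (Fin n) := WithLp.toLp 2 (fun i => max (x i) 0 / ρ) with hp
      set q : EuclideanSpace ℝ (Fin n) := WithLp.toLp 2 (fun i => max (-(x i)) 0 / ρ) with hq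
      have hpC : p ∈ Cube n := fun i => by
        change 0 ≤ max (x i) 0 / ρ ∧ max (x i) 0 / ρ ≤ 1
        refine ⟨div_nonneg (le_max_right _ _) hρ, ?_⟩
        rw [div_le_one h0]
        exact max_le ((le_abs_self _).trans (hx i)) hρ
      have hqC : q ∈ Cube n := fun i => by
        change 0 ≤ max (-(x i)) 0 / ρ ∧ max (-(x i)) 0 / ρ ≤ 1
        refine ⟨div_nonneg (le_max_right _ _) hρ, ?_⟩
        rw [div_le_one h0]
        exact max_le ((neg_le_abs _).trans (hx i)) hρ
      have e : x = ρ • (p - q) := by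
        ext i
        change x i = ρ * (max (x i) 0 / ρ - max (-(x i)) 0 / ρ)
        rcases le_total (x i) 0 with h1 | h1
        · rw [max_eq_right h1, max_eq_left (by linarith)]
          field_simp
          ring
        · rw [max_eq_left h1, max_eq_right (by linarith)]
          field_simp
          ring
      rw [e, gauge_smul_of_nonneg hρ, smul_eq_mul]
      exact mul_le_mul_of_nonneg_left (hle p hpC q hqC) hρ
  -- a short edge
  obtain ⟨i0, hi0⟩ : ∃ i0, gauge G (EuclideanSpace.single i0 (1 : ℝ)) < d := by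
    obtain ⟨x, hxd, i, hxi⟩ := h
    refine ⟨i, ?_⟩
    set M := 1 + ∑ j, |x j| with hM
    have hMj : ∀ j, |x j| ≤ M := fun j => by
      have := Finset.single_le_sum (fun j _ => abs_nonneg (x j)) (Finset.mem_univ j)
      rw [hM]
      linarith
    have hM1 : 1 ≤ M := by
      have : 0 ≤ ∑ j, |x j| := Finset.sum_nonneg fun j _ => abs_nonneg _
      rw [hM]
      linarith
    set t := 1 / (4 * M) with ht
    have ht0 : 0 < t := by positivity
    have ht1 : t ≤ 1 / 4 := by
      rw [ht]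
      apply one_div_le_one_div_of_le (by norm_num)
      linarith
    have htj : ∀ j, t * |x j| ≤ 1 / 4 := fun j => by
      have h1 := mul_le_mul_of_nonneg_left (hMj j) ht0.le
      have h2 : t * M = 1 / 4 := by
        rw [ht]
        field_simp
      linarith
    set q : EuclideanSpace ℝ (Fin n) :=
      (1 / (1 - t)) • (EuclideanSpace.single i (1 : ℝ) - t • x) with hq
    set ρ := max (1 / 2) (1 - t * (x i - 1)) with hρ
    have hρ1 : ρ < 1 := max_lt (by norm_num) (by nlinarith)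
    have hqρ : ∀ j, |q j| ≤ ρ := by
      intro j
      have hqj : q j = (1 / (1 - t)) * ((EuclideanSpace.single i (1 : ℝ)) j - t * x j) := rfl
      have h1t : 0 < 1 - t := by linarith
      rw [hqj, abs_mul, abs_of_pos (by positivity)]
      by_cases hji : j = i
      · subst hji
        have e1 : (EuclideanSpace.single j (1 : ℝ)) j = 1 := by simp
        rw [e1]
        have h2 := htj j
        have h3 := abs_le.1 (le_refl |x j|)
        have h4 : t * x j ≤ 1 / 4 := by
          have := mul_le_mul_of_nonneg_left h3.2 ht0.le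
          linarith
        rw [abs_of_nonneg (by linarith)]
        refine le_trans ?_ (le_max_right _ _)
        rw [one_div, inv_mul_le_iff₀ h1t]
        nlinarith [mul_pos ht0 (by linarith : 0 < x j - 1)]
      · have e1 : (EuclideanSpace.single i (1 : ℝ)) j = 0 := by simp [hji]
        rw [e1, zero_sub, abs_neg, abs_mul, abs_of_pos ht0]
        refine le_trans ?_ (le_max_left _ _)
        rw [one_div, inv_mul_le_iff₀ h1t]
        linarith [htj j]
    have hρ0 : 0 ≤ ρ := le_trans (by norm_num) (le_max_left _ _)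
    have h5 := hQ ρ hρ0 q hqρ
    have e2 : EuclideanSpace.single i (1 : ℝ) = t • x + (1 - t) • q := by
      rw [hq, smul_smul, mul_one_div_cancel (by linarith : (1 : ℝ) - t ≠ 0), one_smul]
      abel
    rw [e2]
    refine lt_of_le_of_lt (hadd _ _) ?_
    rw [gauge_smul_of_nonneg ht0.le, gauge_smul_of_nonneg (by linarith), smul_eq_mul,
      smul_eq_mul]
    have h6 := mul_le_mul_of_nonneg_left hxd ht0.le
    have h7 := mul_le_mul_of_nonneg_left h5 (by linarith : 0 ≤ 1 - t)
    have h8 : (1 - t) * (ρ * d) < (1 - t) * (1 * d) :=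
      mul_lt_mul_of_pos_left (mul_lt_mul_of_pos_right hρ1 hd) (by linarith)
    linarith
  -- the threshold
  obtain ⟨δ, hδ0, hδ1, hδ⟩ : ∃ δ : ℝ, 0 < δ ∧ δ ≤ 1 / 2 ∧
      gauge G (EuclideanSpace.single i0 (1 : ℝ)) + δ * d < d := by
    refine ⟨min (1 / 2) ((d - gauge G (EuclideanSpace.single i0 (1 : ℝ))) / (2 * d)),
      lt_min (by norm_num) (div_pos (by linarith) (by linarith)), min_le_left _ _, ?_⟩
    have h1 := mul_le_mul_of_nonneg_right (min_le_right (1 / 2)
      ((d - gauge G (EuclideanSpace.single i0 (1 : ℝ))) / (2 * d))) hd.le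
    have h2 : (d - gauge G (EuclideanSpace.single i0 (1 : ℝ))) / (2 * d) * d =
        (d - gauge G (EuclideanSpace.single i0 (1 : ℝ))) / 2 := by
      field_simp
    rw [h2] at h1
    linarith
  -- the labels
  set g0 : Fin n → Bool := fun i => decide (i = i0) with hg0
  set S : EuclideanSpace ℝ (Fin n) → (Fin n → Bool) := fun x i => decide (δ ≤ x i) with hS
  set lab : EuclideanSpace ℝ (Fin n) → {f : Fin n → Bool // f ≠ g0} := fun x =>
    if hx : S x = g0 then ⟨fun _ => false, fun h => by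
      have := congrFun h i0
      simp [hg0] at this⟩
    else ⟨S x, hx⟩ with hlab
  have hcard : Fintype.card {f : Fin n → Bool // f ≠ g0} = 2 ^ n - 1 := by
    rw [Fintype.card_subtype_compl, Fintype.card_fun, Fintype.card_fin, Fintype.card_bool,
      Fintype.card_subtype_eq]
  let e := Fintype.equivFinOfCardEq hcard
  refine ⟨fun k => {x | x ∈ Cube n ∧ e (lab x) = k}, ?_, fun k => ?_⟩
  · ext x
    rw [Set.mem_iUnion]
    constructor
    · rintro ⟨k, hx, -⟩
      exact hx
    · exact fun hx => ⟨e (lab x), hx, rfl⟩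
  · refine ⟨max ((1 - δ) * d) (gauge G (EuclideanSpace.single i0 (1 : ℝ)) + δ * d),
      max_lt (by nlinarith) hδ, ?_⟩
    rintro x ⟨hx, hxk⟩ y ⟨hy, hyk⟩
    have hxy : lab x = lab y := e.injective (hxk.trans hyk.symm)
    by_cases h0 : (lab x).1 = fun _ => false
    · -- the merged piece
      have hsmall : ∀ z, (lab z).1 = (fun _ => false) → ∀ j, j ≠ i0 → z j < δ := by
        intro z hz j hj
        by_contra hc
        push Not at hc
        by_cases hSz : S z = g0
        · have := congrFun hSz j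
          simp [hS, hg0, hj, hc] at this
        · have h1 : (lab z).1 = S z := by
            simp [hlab, hSz]
          rw [h1] at hz
          have := congrFun hz j
          simp [hS, hc] at this
      have hxs := hsmall x h0
      have hys := hsmall y (by rw [← hxy]; exact h0)
      refine le_trans ?_ (le_max_right _ _)
      set r : EuclideanSpace ℝ (Fin n) :=
        x - y - (x i0 - y i0) • EuclideanSpace.single i0 (1 : ℝ) with hr
      have hrδ : ∀ j, |r j| ≤ δ := by
        intro j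
        have hrj : r j = x j - y j - (x i0 - y i0) * (EuclideanSpace.single i0 (1 : ℝ)) j := rfl
        rw [hrj]
        by_cases hj : j = i0
        · subst hj
          simp
          exact hδ0.le
        · have e1 : (EuclideanSpace.single i0 (1 : ℝ)) j = 0 := by simp [hj]
          rw [e1, mul_zero, sub_zero, abs_le]
          have h1 := hxs j hj
          have h2 := hys j hj
          have h3 := (hx j).1
          have h4 := (hy j).1
          constructor <;> linarith
      have e2 : x - y = (x i0 - y i0) • EuclideanSpace.single i0 (1 : ℝ) + r := by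
        rw [hr]
        abel
      rw [e2]
      refine (hadd _ _).trans (add_le_add ?_ (hQ δ hδ0.le r hrδ))
      have h1 : gauge G ((x i0 - y i0) • EuclideanSpace.single i0 (1 : ℝ)) =
          |x i0 - y i0| * gauge G (EuclideanSpace.single i0 (1 : ℝ)) := by
        rcases le_total 0 (x i0 - y i0) with h2 | h2
        · rw [gauge_smul_of_nonneg h2, abs_of_nonneg h2, smul_eq_mul]
        · have h3 : (x i0 - y i0) • EuclideanSpace.single i0 (1 : ℝ) =
              -((-(x i0 - y i0)) • EuclideanSpace.single i0 (1 : ℝ)) := by module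
          rw [h3, gauge_neg hG.2, gauge_smul_of_nonneg (by linarith), abs_of_nonpos h2,
            smul_eq_mul]
      rw [h1]
      have h2 : |x i0 - y i0| ≤ 1 := by
        rw [abs_le]
        have h3 := hx i0
        have h4 := hy i0
        constructor <;> linarith
      have h5 := mul_le_mul_of_nonneg_right h2 (gauge_nonneg
        (EuclideanSpace.single i0 (1 : ℝ)) (s := G))
      linarith
    · have hSx : ∀ z, (lab z).1 ≠ (fun _ => false) → (lab z).1 = S z := by
        intro z hz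
        by_cases hSz : S z = g0
        · exfalso
          apply hz
          simp [hlab, hSz]
        · simp [hlab, hSz]
      have hSS : S x = S y := by
        rw [← hSx x h0, ← hSx y (by rw [← hxy]; exact h0), hxy]
      refine le_trans ?_ (le_max_left _ _)
      refine hQ (1 - δ) (by linarith) (x - y) fun i => ?_
      have e1 : (x - y) i = x i - y i := rfl
      rw [e1, abs_le]
      have h1 := congrFun hSS i
      simp only [hS, decide_eq_decide] at h1
      have h2 := hx i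
      have h3 := hy i
      by_cases h4 : δ ≤ x i
      · have h5 := h1.1 h4
        constructor <;> linarith
      · have h5 : ¬ δ ≤ y i := fun h => h4 (h1.2 h)
        push Not at h4 h5
        constructor <;> linarith

/-- `1 / 2` in all coordinates -/
noncomputable def half (n : ℕ) : EuclideanSpace ℝ (Fin n) := WithLp.toLp 2 (fun _ => (1 / 2 : ℝ))

lemma mem_box {x : EuclideanSpace ℝ (Fin n)} : (∀ i, |x i| ≤ 1 / 2) ↔ x + half n ∈ Cube n := by
  refine forall_congr' fun i => ?_
  have h4 : (x + half n) i = x i + 1 / 2 := rfl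
  rw [h4, abs_le]
  constructor
  · intro h
    constructor <;> linarith
  · intro h
    constructor <;> linarith

lemma par_image {G : Set (EuclideanSpace ℝ (Fin n))} (h : Parallelepiped G)
    (T : EuclideanSpace ℝ (Fin n) ≃ₗ[ℝ] EuclideanSpace ℝ (Fin n)) :
    Parallelepiped (T '' G) := by
  obtain ⟨A, v, rfl⟩ := h
  refine ⟨A.trans T, T v, ?_⟩
  rw [Set.image_image]
  refine Set.image_congr fun x _ => ?_
  rw [map_add]
  rfl

lemma par_smul {G : Set (EuclideanSpace ℝ (Fin n))} (h : Parallelepiped G) {r : ℝ}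
    (hr : r ≠ 0) : Parallelepiped (r • G) :=
  par_image h (LinearEquiv.smulOfNeZero ℝ _ r hr)

/-- The case of a cell `K` between `(F - F) / 2` and `(d / 2) G`. -/
lemma between_cell (hn : 1 ≤ n) {F G : Set (EuclideanSpace ℝ (Fin n))}
    (L : Submodule ℤ (EuclideanSpace ℝ (Fin n))) [DiscreteTopology L] [IsZLattice ℝ L]
    (hF : Body F) (hG : SBody G) (hFK : F - F ⊆ (2 : ℝ) • Cell L)
    (hKG : (2 : ℝ) • Cell L ⊆ Diam F G • G) :
    Parts F G (2 ^ n) ∧
    (¬ Parts F G (2 ^ n - 1) → Parallelepiped G ∧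
      ∃ (r : ℝ) (v : EuclideanSpace ℝ (Fin n)), 0 < r ∧ F = (fun x => r • x + v) '' G) := by
  have hS := Pool.Agent.TN.vor_sym L
  have hL : SBody (Cell L) := ⟨⟨hS.cpt, hS.cvx, hS.int⟩, hS.symm⟩
  have hcov : Covers (Cell L) L := by
    intro x
    obtain ⟨l, hl, hx⟩ := Pool.Agent.TN.vor_cover L x
    exact ⟨x - l, hx, l, hl, (sub_add_cancel x l).symm⟩
  have hvol : volume.real (Cell L) = ZLattice.covolume L := Pool.Agent.TN.vor_vol L
  have hcv : 0 < ZLattice.covolume L := ZLattice.covolume_pos L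
  obtain ⟨-, -, r1, r2⟩ := covering n hn F G (Cell L) L hF hG hL hcov hKG
  refine ⟨r1 hFK ?_, fun hnot => ?_⟩
  · rw [hvol]
    have : 0 < 1 / (2 : ℝ) ^ n * ZLattice.covolume L := by positivity
    linarith
  obtain ⟨hd, hle⟩ := diam_facts hn hF hG.1 hG.2
  set d := Diam F G with hdd
  obtain ⟨v, hv⟩ : ∃ v : EuclideanSpace ℝ (Fin n), F = (fun x => x + v) '' Cell L := by
    by_contra hcon
    push Not at hcon
    exact hnot (r2 hFK hvol hcon)
  rcases cell_parts L with ⟨A, hA, hAc⟩ | ⟨A, hA⟩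
  · -- the cell is not a box
    exfalso
    apply hnot
    refine ⟨fun i => (fun x => x + v) '' A i, ?_, fun i => ?_⟩
    · rw [← Set.image_iUnion, hA, hv]
    · obtain ⟨c, hc, hcA⟩ := hAc i
      refine ⟨c * (d / 2), ?_, ?_⟩
      · have := mul_lt_mul_of_pos_right hc (half_pos hd)
        rw [← hdd]
        linarith
      · rintro _ ⟨x, hx, rfl⟩ _ ⟨z, hz, rfl⟩
        change gauge G (x + v - (z + v)) ≤ _
        rw [add_sub_add_right_eq_sub]
        refine le_trans ?_ (mul_le_mul_of_nonneg_right (hcA x hx z hz) (half_pos hd).le)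
        -- compare the two norms
        set u := x - z with hu
        by_cases hu0 : u = 0
        · rw [hu0, gauge_zero, gauge_zero, zero_mul]
        · have hg := gauge_pos' hL.1 hL.2 hu0
          set g := gauge (Cell L) u with hgdef
          have h3 : gauge (Cell L) (g⁻¹ • u) = 1 := by
            rw [gauge_smul_of_nonneg (inv_nonneg.2 hg.le), smul_eq_mul, ← hgdef,
              inv_mul_cancel₀ hg.ne']
          have h4 : g⁻¹ • u ∈ Cell L := gauge_le hL.1 hL.2 h3.le
          obtain ⟨w, hw, hwe⟩ := hKG (Set.smul_mem_smul_set h4)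
          have h5 : u = (g * (d / 2)) • w := by
            have e1 : d • w = (2 : ℝ) • g⁻¹ • u := hwe
            rw [mul_div_assoc', div_eq_mul_inv, mul_comm (g * d), mul_comm g d, ← mul_assoc,
              mul_assoc, mul_comm d g, ← mul_assoc]
            rw [mul_smul, e1, smul_smul, smul_smul]
            have e2 : 2⁻¹ * g * 2 * g⁻¹ = 1 := by field_simp
            rw [e2, one_smul]
          rw [h5, gauge_smul_of_nonneg (by positivity), smul_eq_mul]
          have h6 := gauge_le_one_of_mem hw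
          have h7 : 0 ≤ g * (d / 2) := by positivity
          nlinarith
  · -- the cell is a box
    have hFC : F = (fun x => (1 : ℝ) • x + (v - A (half n))) '' (A '' Cube n) := by
      rw [hv, hA, Set.image_image, Set.image_image]
      ext z
      constructor
      · rintro ⟨x, hx, rfl⟩
        refine ⟨x + half n, mem_box.1 hx, ?_⟩
        change (1 : ℝ) • A (x + half n) + (v - A (half n)) = A x + v
        rw [one_smul, map_add]
        abel
      · rintro ⟨x, hx, rfl⟩
        refine ⟨x - half n, ?_, ?_⟩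
        · change ∀ i, |(x - half n) i| ≤ 1 / 2
          rw [mem_box, sub_add_cancel]
          exact hx
        · change A (x - half n) + v = (1 : ℝ) • A x + (v - A (half n))
          rw [one_smul, map_sub]
          abel
    have hGA : A '' (A.symm '' G) = G := by
      rw [Set.image_image]
      simp
    have hG' : SBody (A.symm '' G) := by
      have hc : Continuous A.symm := A.symm.toContinuousLinearEquiv.continuous
      refine ⟨⟨hG.1.1.image hc, hG.1.2.1.linear_image A.symm.toLinearMap, ?_⟩, ?_⟩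
      · have h1 : IsOpenMap A.symm := A.symm.toContinuousLinearEquiv.toHomeomorph.isOpenMap
        obtain ⟨o, ho⟩ := hG.1.2.2
        exact ⟨A.symm o, interior_maximal (Set.image_mono interior_subset)
          (h1 _ isOpen_interior) ⟨o, ho, rfl⟩⟩
      · rintro _ ⟨g, hg, rfl⟩
        exact ⟨-g, hG.2 g hg, map_neg _ _⟩
    have hdC : Diam (Cube n) (A.symm '' G) = d := by
      rw [← diam_image A, hGA, hdd, hFC, diam_affine _ _ one_pos, one_mul]
    have hbox : ∀ x, gauge (A.symm '' G) x ≤ d → ∀ i, x i ≤ 1 := by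
      intro x hx i
      by_contra hcon
      push Not at hcon
      apply hnot
      have h1 := cube_parts hn hG' ⟨x, by rw [hdC]; exact hx, i, hcon⟩
      have h2 := parts_affine (r := 1) one_pos (v - A (half n)) (parts_image A h1)
      rw [hGA, ← hFC] at h2
      exact h2
    have hGV : ∀ g ∈ G, (d / 2) • g ∈ Cell L := by
      intro g hg
      have h1 : ∀ g ∈ G, ∀ i, (A.symm (d • g)) i ≤ 1 := by
        intro g hg
        apply hbox
        rw [map_smul, gauge_smul_of_nonneg hd.le, smul_eq_mul]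
        have h2 : A.symm g ∈ A.symm '' G := ⟨g, hg, rfl⟩
        have h3 := gauge_le_one_of_mem h2
        have h4 := mul_le_mul_of_nonneg_left h3 hd.le
        linarith
      rw [hA]
      refine ⟨(1 / 2 : ℝ) • A.symm (d • g), fun i => ?_, ?_⟩
      · have h2 := h1 g hg i
        have h3 := h1 (-g) (hG.2 g hg) i
        have e1 : (A.symm (d • -g)) i = -(A.symm (d • g)) i := by
          rw [smul_neg, map_neg]
          rfl
        rw [e1] at h3
        have e2 : ((1 / 2 : ℝ) • A.symm (d • g)) i = (1 / 2) * (A.symm (d • g)) i := rfl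
        rw [e2, abs_le]
        constructor <;> linarith
      · rw [map_smul, LinearEquiv.apply_symm_apply, smul_smul]
        congr 1
        ring
    have hVG : ∀ z ∈ Cell L, (2 / d) • z ∈ G := by
      intro z hz
      obtain ⟨w, hw, hwe⟩ := hKG (Set.smul_mem_smul_set hz)
      have e1 : d • w = (2 : ℝ) • z := hwe
      have e2 : (2 / d) • z = w := by
        rw [div_eq_inv_mul, mul_smul, ← e1, smul_smul, inv_mul_cancel₀ hd.ne', one_smul]
      rw [e2]
      exact hw
    have hGe : G = (2 / d) • Cell L := by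
      ext g
      constructor
      · intro hg
        refine ⟨(d / 2) • g, hGV g hg, ?_⟩
        change (2 / d) • (d / 2) • g = g
        rw [smul_smul]
        have e : 2 / d * (d / 2) = 1 := by field_simp
        rw [e, one_smul]
      · rintro ⟨z, hz, rfl⟩
        exact hVG z hz
    have hparV : Parallelepiped (Cell L) := by
      refine ⟨A, -A (half n), ?_⟩
      rw [hA]
      ext z
      constructor
      · rintro ⟨x, hx, rfl⟩
        refine ⟨x + half n, mem_box.1 hx, ?_⟩
        change A (x + half n) + -A (half n) = A x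
        rw [map_add]
        abel
      · rintro ⟨x, hx, rfl⟩
        refine ⟨x - half n, ?_, ?_⟩
        · change ∀ i, |(x - half n) i| ≤ 1 / 2
          rw [mem_box, sub_add_cancel]
          exact hx
        · change A (x - half n) = A x + -A (half n)
          rw [map_sub]
          abel
    refine ⟨?_, d / 2, v, by positivity, ?_⟩
    · rw [hGe]
      exact par_smul hparV (by positivity)
    · rw [hv]
      ext z
      constructor
      · rintro ⟨x, hx, rfl⟩
        refine ⟨(2 / d) • x, hVG x hx, ?_⟩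
        change (d / 2) • (2 / d) • x + v = x + v
        rw [smul_smul]
        have e : d / 2 * (2 / d) = 1 := by field_simp
        rw [e, one_smul]
      · rintro ⟨g, hg, rfl⟩
        exact ⟨(d / 2) • g, hGV g hg, rfl⟩

/-- The same for linear images of cells. -/
lemma between (hn : 1 ≤ n) {F G : Set (EuclideanSpace ℝ (Fin n))}
    (L : Submodule ℤ (EuclideanSpace ℝ (Fin n))) [DiscreteTopology L] [IsZLattice ℝ L]
    (T : EuclideanSpace ℝ (Fin n) ≃ₗ[ℝ] EuclideanSpace ℝ (Fin n))
    (hF : Body F) (hG : SBody G) (hFK : F - F ⊆ (2 : ℝ) • (T '' Cell L))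
    (hKG : (2 : ℝ) • (T '' Cell L) ⊆ Diam F G • G) :
    Parts F G (2 ^ n) ∧
    (¬ Parts F G (2 ^ n - 1) → Parallelepiped G ∧
      ∃ (r : ℝ) (v : EuclideanSpace ℝ (Fin n)), 0 < r ∧ F = (fun x => r • x + v) '' G) := by
  have hTF : T '' (T.symm '' F) = F := by
    rw [Set.image_image]
    simp
  have hTG : T '' (T.symm '' G) = G := by
    rw [Set.image_image]
    simp
  have hc : Continuous T.symm := T.symm.toContinuousLinearEquiv.continuous
  have h1 : IsOpenMap T.symm := T.symm.toContinuousLinearEquiv.toHomeomorph.isOpenMap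
  have hB : ∀ S : Set (EuclideanSpace ℝ (Fin n)), Body S → Body (T.symm '' S) := by
    intro S hS
    refine ⟨hS.1.image hc, hS.2.1.linear_image T.symm.toLinearMap, ?_⟩
    obtain ⟨o, ho⟩ := hS.2.2
    exact ⟨T.symm o, interior_maximal (Set.image_mono interior_subset) (h1 _ isOpen_interior)
      ⟨o, ho, rfl⟩⟩
  have hG' : SBody (T.symm '' G) := by
    refine ⟨hB G hG.1, ?_⟩
    rintro _ ⟨g, hg, rfl⟩
    exact ⟨-g, hG.2 g hg, map_neg _ _⟩
  have hdiam : Diam (T.symm '' F) (T.symm '' G) = Diam F G := diam_image T.symm F G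
  obtain ⟨r1, r2⟩ := between_cell hn L (hB F hF) hG' (by
    rintro _ ⟨_, ⟨x, hx, rfl⟩, _, ⟨y, hy, rfl⟩, rfl⟩
    obtain ⟨_, ⟨k, hk, rfl⟩, hkxy⟩ := hFK (Set.sub_mem_sub hx hy)
    refine ⟨k, hk, ?_⟩
    have e1 : (2 : ℝ) • T k = x - y := hkxy
    change (2 : ℝ) • k = T.symm x - T.symm y
    rw [← map_sub, ← e1, map_smul, LinearEquiv.symm_apply_apply]) (by
    rintro _ ⟨k, hk, rfl⟩
    obtain ⟨g, hg, hge⟩ := hKG (Set.smul_mem_smul_set ⟨k, hk, rfl⟩)
    rw [hdiam]
    refine ⟨T.symm g, ⟨g, hg, rfl⟩, ?_⟩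
    have e1 : Diam F G • g = (2 : ℝ) • T k := hge
    change Diam F G • T.symm g = (2 : ℝ) • k
    rw [← map_smul, e1, map_smul, LinearEquiv.symm_apply_apply])
  constructor
  · have := parts_image T r1
    rwa [hTF, hTG] at this
  · intro hnot
    obtain ⟨h2, r, v, hr, h3⟩ := r2 (by
      intro h
      apply hnot
      have := parts_image T h
      rwa [hTF, hTG] at this)
    refine ⟨?_, r, T v, hr, ?_⟩
    · have := par_image h2 T
      rwa [hTG] at this
    · have e1 : F = T '' ((fun x => r • x + v) '' (T.symm '' G)) := by rw [← h3, hTF]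
      have e2 : T '' ((fun x => r • x + v) '' (T.symm '' G)) =
          (fun x => r • x + T v) '' (T '' (T.symm '' G)) := by
        generalize T.symm '' G = S
        rw [Set.image_image, Set.image_image]
        refine Set.image_congr fun x _ => ?_
        rw [map_add, map_smul]
      rw [hTG] at e2
      exact e1.trans e2

/-- The norm of a linear image of a cell. -/
lemma cell_norm (hn : 1 ≤ n) {F G : Set (EuclideanSpace ℝ (Fin n))}
    (L : Submodule ℤ (EuclideanSpace ℝ (Fin n))) [DiscreteTopology L] [IsZLattice ℝ L]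
    (T : EuclideanSpace ℝ (Fin n) ≃ₗ[ℝ] EuclideanSpace ℝ (Fin n))
    (hF : Body F) (hG : SBody G) (hT : G = T '' Cell L) :
    Parts F G (2 ^ n) ∧
    (¬ Parts F G (2 ^ n - 1) → Parallelepiped G ∧
      ∃ (r : ℝ) (v : EuclideanSpace ℝ (Fin n)), 0 < r ∧ F = (fun x => r • x + v) '' G) := by
  obtain ⟨hd, hle⟩ := diam_facts hn hF hG.1 hG.2
  have hd2 : Diam F G / 2 ≠ 0 := by positivity
  set S := LinearEquiv.smulOfNeZero ℝ (EuclideanSpace ℝ (Fin n)) (Diam F G / 2) hd2 with hS
  have hSG : (T.trans S) '' Cell L = (Diam F G / 2) • G := by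
    ext z
    constructor
    · rintro ⟨x, hx, rfl⟩
      exact ⟨T x, by rw [hT]; exact ⟨x, hx, rfl⟩, rfl⟩
    · rintro ⟨g, hg, rfl⟩
      rw [hT] at hg
      obtain ⟨x, hx, rfl⟩ := hg
      exact ⟨x, hx, rfl⟩
  have hG2 : (2 : ℝ) • ((Diam F G / 2) • G) = Diam F G • G := by
    rw [smul_smul]
    congr 1
    ring
  refine between hn L (T.trans S) hF hG ?_ ?_
  · rw [hSG, hG2]
    rintro _ ⟨x, hx, y, hy, rfl⟩
    refine ⟨(Diam F G)⁻¹ • (x - y), gauge_le hG.1 hG.2 ?_, ?_⟩
    · rw [gauge_smul_of_nonneg (inv_nonneg.2 hd.le), smul_eq_mul, inv_mul_le_iff₀ hd, mul_one]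
      exact hle x hx y hy
    · change Diam F G • (Diam F G)⁻¹ • (x - y) = x - y
      rw [smul_smul, mul_inv_cancel₀ hd.ne', one_smul]
  · rw [hSG, hG2]

/-- **Pairs of bodies with a lattice cell between them.**  Let `F` and `G` be convex bodies in
`ℝ ^ n`, `G` centrally symmetric, and let `d` be the `G`-diameter of `F`, so that `F - F ⊆ d G`.

(a) Let `K` be a linear image of the cell of a lattice, with `F - F ⊆ 2 K ⊆ d G`.  Then
`a_G(F) ≤ 2 ^ n`, and `a_G(F) ≤ 2 ^ n - 1` unless `F` and `G` are homothetic parallelepipeds.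

(b) The case `K = (d / 2) G`: if `G` is a linear image of the cell of a lattice, then
`a_G(F) ≤ 2 ^ n` for every `F`, and `a_G(F) ≤ 2 ^ n - 1` unless `F` and `G` are homothetic
parallelepipeds. -/
theorem result (n : ℕ) (hn : 1 ≤ n) (F G : Set (EuclideanSpace ℝ (Fin n)))
    (hF : Body F) (hG : SBody G) (L : Submodule ℤ (EuclideanSpace ℝ (Fin n)))
    [DiscreteTopology L] [IsZLattice ℝ L]
    (T : EuclideanSpace ℝ (Fin n) ≃ₗ[ℝ] EuclideanSpace ℝ (Fin n)) :
    (F - F ⊆ (2 : ℝ) • (T '' Cell L) → (2 : ℝ) • (T '' Cell L) ⊆ Diam F G • G →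
      Parts F G (2 ^ n) ∧
      (¬ Parts F G (2 ^ n - 1) → Parallelepiped G ∧
        ∃ (r : ℝ) (v : EuclideanSpace ℝ (Fin n)), 0 < r ∧ F = (fun x => r • x + v) '' G)) ∧
    (G = T '' Cell L →
      Parts F G (2 ^ n) ∧
      (¬ Parts F G (2 ^ n - 1) → Parallelepiped G ∧
        ∃ (r : ℝ) (v : EuclideanSpace ℝ (Fin n)), 0 < r ∧ F = (fun x => r • x + v) '' G)) :=
  ⟨fun h1 h2 => between hn L T hF hG h1 h2, fun hT => cell_norm hn L T hF hG hT⟩

end Pool.Agent.Results.MP_c15520_co.CellNorms
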