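import Mathlib
import Pool.Agent.TNL.Fin

/-!
# Partition numbers: `a_G(F) ≤ 188 n 2 ^ n` for all pairs of bodies in all dimensions
-/

set_option autoImplicit false

open MeasureTheory Set
open scoped Pointwise

namespace Pool.Agent.Results.MP_c15520_co.LinearBound

/-- Convex bodies. -/
def Body {n : ℕ} (F : Set (EuclideanSpace ℝ (Fin n))) : Prop :=
  IsCompact F ∧ Convex ℝ F ∧ (interior F).Nonempty

/-- Centrally symmetric convex bodies. -/
def SBody {n : ℕ} (G : Set (EuclideanSpace ℝ (Fin n))) : Prop :=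
  Body G ∧ ∀ x ∈ G, -x ∈ G

/-- The diameter of `F` in the norm with unit ball `G`. -/
noncomputable def Diam {n : ℕ} (F G : Set (EuclideanSpace ℝ (Fin n))) : ℝ :=
  sSup ((fun p : EuclideanSpace ℝ (Fin n) × EuclideanSpace ℝ (Fin n) =>
    gauge G (p.1 - p.2)) '' (F ×ˢ F))

variable {n : ℕ}

lemma nhds_zero {G : Set (EuclideanSpace ℝ (Fin n))} (hG : SBody G) :
    G ∈ nhds (0 : EuclideanSpace ℝ (Fin n)) := by
  obtain ⟨o, ho⟩ := hG.1.2.2
  have h1 : IsOpen ((fun x => (2 : ℝ) • x + o) ⁻¹' interior G) :=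
    isOpen_interior.preimage (by fun_prop)
  refine Filter.mem_of_superset (h1.mem_nhds (by simpa using ho)) ?_
  intro x hx
  have hcv : Convex ℝ G := hG.1.2.1
  have h2 := hcv (interior_subset hx) (hG.2 o (interior_subset ho))
    (a := 1 / 2) (b := 1 / 2) (by norm_num) (by norm_num) (by norm_num)
  have e : (1 / 2 : ℝ) • ((2 : ℝ) • x + o) + (1 / 2 : ℝ) • -o = x := by module
  rwa [e] at h2

lemma gauge_le_diam {F G : Set (EuclideanSpace ℝ (Fin n))} (hF : Body F) (hG : SBody G)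
    {x y : EuclideanSpace ℝ (Fin n)} (hx : x ∈ F) (hy : y ∈ F) :
    gauge G (x - y) ≤ Diam F G := by
  have hc : Continuous (gauge G) := continuous_gauge hG.1.2.1 (nhds_zero hG)
  refine le_csSup ?_ ⟨(x, y), ⟨hx, hy⟩, rfl⟩
  exact ((hF.1.prod hF.1).image (hc.comp (continuous_fst.sub continuous_snd))).bddAbove

lemma diam_pos {F G : Set (EuclideanSpace ℝ (Fin n))} (hn : 1 ≤ n) (hF : Body F) (hG : SBody G) :
    0 < Diam F G := by
  have h2 : ∃ x ∈ F, ∃ y ∈ F, x ≠ y := by
    by_contra hcon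
    push Not at hcon
    obtain ⟨o, ho⟩ := hF.2.2
    have : Nonempty (Fin n) := ⟨⟨0, hn⟩⟩
    have h1 : F ⊆ {o} := fun z hz => hcon z hz o (interior_subset ho)
    have h2 := interior_mono h1 ho
    rw [interior_singleton] at h2
    exact h2
  obtain ⟨x, hx, y, hy, hxy⟩ := h2
  have h3 : 0 < gauge G (x - y) :=
    (gauge_pos (absorbent_nhds_zero (nhds_zero hG))
      (NormedSpace.isVonNBounded_of_isBounded ℝ hG.1.1.isBounded)).2 (sub_ne_zero.2 hxy)
  exact h3.trans_le (gauge_le_diam hF hG hx hy)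

/-- **The linear bound.**  Let `F` be a convex body in `ℝ ^ n`.

(a) `F` is covered by at most `188 n 2 ^ n` translates of the interior of `(F - F) / 2`.

(b) `F` is the union of `188 n 2 ^ n` sets, each of which has smaller diameter than `F` in every
norm.  In particular `a_G(F) ≤ 188 n 2 ^ n` for every centrally symmetric convex body `G`. -/
theorem result (n : ℕ) (hn : 1 ≤ n) (F : Set (EuclideanSpace ℝ (Fin n))) (hF : Body F) :
    (∃ T : Finset (EuclideanSpace ℝ (Fin n)), T.card ≤ 188 * n * 2 ^ n ∧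
      F ⊆ ⋃ t ∈ T, (fun x => t + x) '' interior ((1 / 2 : ℝ) • (F - F))) ∧
    ∃ A : Fin (188 * n * 2 ^ n) → Set (EuclideanSpace ℝ (Fin n)), (⋃ i, A i) = F ∧
      ∀ G : Set (EuclideanSpace ℝ (Fin n)), SBody G →
        ∀ i, ∃ c : ℝ, c < Diam F G ∧ ∀ x ∈ A i, ∀ y ∈ A i, gauge G (x - y) ≤ c := by
  obtain ⟨T, c, hT, hc0, hc1, hTc⟩ := Pool.Agent.TNL.cover n F hn hF.1 hF.2.1 hF.2.2
  constructor
  · refine ⟨T, hT, fun y hy => ?_⟩
    obtain ⟨t, ht, k, hk, hkt⟩ := hTc y hy
    simp only [Set.mem_iUnion]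
    refine ⟨t, ht, y - t, ?_, by simp⟩
    -- `c D` lies in the interior of `D`
    have hconv : Convex ℝ ((1 / 2 : ℝ) • (F - F)) := (hF.2.1.sub hF.2.1).smul _
    have h0 : (0 : EuclideanSpace ℝ (Fin n)) ∈ interior ((1 / 2 : ℝ) • (F - F)) := by
      obtain ⟨o, ho⟩ := hF.2.2
      have h1 : IsOpen ((fun x => (2 : ℝ) • x + o) ⁻¹' interior F) :=
        isOpen_interior.preimage (by fun_prop)
      refine interior_maximal ?_ h1 (by simpa using ho)
      intro x hx
      refine ⟨(2 : ℝ) • x, ⟨(2 : ℝ) • x + o, interior_subset hx, o, interior_subset ho, ?_⟩, ?_⟩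
      · change (2 : ℝ) • x + o - o = (2 : ℝ) • x
        abel
      · change (1 / 2 : ℝ) • (2 : ℝ) • x = x
        rw [smul_smul]
        norm_num
    have h1 := hconv.combo_interior_self_mem_interior h0 hk (a := 1 - c) (b := c) (by linarith)
      hc0 (by ring)
    have h2 : c • k = y - t := hkt
    rw [smul_zero, zero_add, h2] at h1
    exact h1
  · -- the parts
    have hcard : T.card ≤ Fintype.card (Fin (188 * n * 2 ^ n)) := by simpa using hT
    have hN : 0 < 188 * n * 2 ^ n := by positivity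
    obtain ⟨o, ho⟩ := hF.2.2
    obtain ⟨t0, ht0, -⟩ := hTc o (interior_subset ho)
    have hne : Nonempty T := ⟨⟨t0, ht0⟩⟩
    obtain ⟨f, hf⟩ : ∃ f : Fin (188 * n * 2 ^ n) → T, Function.Surjective f := by
      have : Nonempty (T ↪ Fin (188 * n * 2 ^ n)) :=
        Function.Embedding.nonempty_of_card_le (by simpa using hT)
      obtain ⟨g⟩ := this
      exact ⟨Function.invFun g, Function.invFun_surjective g.injective⟩
    refine ⟨fun i => {y | y ∈ F ∧ y - (f i : EuclideanSpace ℝ (Fin n)) ∈ c • Pool.Agent.TNL.D F},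
      ?_, ?_⟩
    · ext y
      rw [Set.mem_iUnion]
      constructor
      · rintro ⟨i, hy, -⟩
        exact hy
      · intro hy
        obtain ⟨t, ht, hyt⟩ := hTc y hy
        obtain ⟨i, hi⟩ := hf ⟨t, ht⟩
        exact ⟨i, hy, by rw [hi]; exact hyt⟩
    · intro G hG i
      have hd := diam_pos hn hF hG
      refine ⟨c * Diam F G, by nlinarith, ?_⟩
      rintro x ⟨-, k, hk, hkx⟩ y ⟨-, l, hl, hly⟩
      have hkx' : c • k = x - (f i : EuclideanSpace ℝ (Fin n)) := hkx
      have hly' : c • l = y - (f i : EuclideanSpace ℝ (Fin n)) := hly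
      have e1 : x - y = c • (k - l) := by
        rw [smul_sub, hkx', hly']
        abel
      rw [e1, gauge_smul_of_nonneg hc0, smul_eq_mul]
      refine mul_le_mul_of_nonneg_left ?_ hc0
      -- `k - l` is in `F - F`
      obtain ⟨a, ha, b, hb, hab⟩ := Pool.Agent.TNL.mem_D.1 hk
      obtain ⟨a', ha', b', hb', hab'⟩ := Pool.Agent.TNL.mem_D.1 hl
      have hcv : Convex ℝ F := hF.2.1
      have hm1 := hcv ha hb' (a := 1 / 2) (b := 1 / 2) (by norm_num) (by norm_num)
        (by norm_num)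
      have hm2 := hcv hb ha' (a := 1 / 2) (b := 1 / 2) (by norm_num) (by norm_num)
        (by norm_num)
      have e2 : k - l = ((1 / 2 : ℝ) • a + (1 / 2 : ℝ) • b') -
          ((1 / 2 : ℝ) • b + (1 / 2 : ℝ) • a') := by
        have e3 : k - l = (1 / 2 : ℝ) • ((2 : ℝ) • k - (2 : ℝ) • l) := by module
        rw [e3, hab, hab']
        module
      rw [e2]
      exact gauge_le_diam hF hG hm1 hm2

end Pool.Agent.Results.MP_c15520_co.LinearBound
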