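import Mathlib
import Pool.Agent.PNR.Cor

/-!
# Partition numbers in normed spaces of bodies with few almost isometric simplices

`F` is any convex body of `ℝ ^ n` and `K = (F - F) / 2`.  The body `G` is the unit ball of any norm.
-/

set_option autoImplicit false

open MeasureTheory Set
open scoped Pointwise

namespace Pool.Agent.Results.MP_c15520_co.RandomSimplices

/-- Convex bodies. -/
def Body {n : ℕ} (F : Set (EuclideanSpace ℝ (Fin n))) : Prop :=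
  IsCompact F ∧ Convex ℝ F ∧ (interior F).Nonempty

/-- Half of the difference body. -/
def Half {n : ℕ} (F : Set (EuclideanSpace ℝ (Fin n))) : Set (EuclideanSpace ℝ (Fin n)) :=
  {z | ∃ x ∈ F, ∃ y ∈ F, z = (1 / 2 : ℝ) • (x - y)}

/-- The `m`-tuples of points of `F` which span an almost isometric copy of the simplex of the unit
vectors of `ℓ_1 ^ m` in the norm with unit ball `Half F`. -/
def Simplices {n : ℕ} (F : Set (EuclideanSpace ℝ (Fin n))) (m : ℕ) (r : ℝ) :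
    Set (Fin m → EuclideanSpace ℝ (Fin n)) :=
  {w | (∀ i, w i ∈ F) ∧ ∀ c : Fin m → ℝ, ∑ i, c i = 0 →
    r * ∑ i, |c i| ≤ gauge (Half F) (∑ i, c i • w i)}

/-- `F` is a union of `N` sets whose diameters, in the norm with unit ball `G`, are smaller than the
diameter of `F`. -/
def Parts {n : ℕ} (F G : Set (EuclideanSpace ℝ (Fin n))) (N : ℕ) : Prop :=
  ∃ A : Fin N → Set (EuclideanSpace ℝ (Fin n)), (⋃ i, A i) = F ∧ ∀ i, ∃ c : ℝ,
    c < sSup ((fun p : EuclideanSpace ℝ (Fin n) × EuclideanSpace ℝ (Fin n) =>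
      gauge G (p.1 - p.2)) '' (F ×ˢ F)) ∧
    ∀ x ∈ A i, ∀ y ∈ A i, gauge G (x - y) ≤ c

lemma body {n : ℕ} {F : Set (EuclideanSpace ℝ (Fin n))} (h : Body F) : Pool.Agent.PNR.Body F :=
  ⟨h.1, h.2.1, h.2.2⟩

lemma ball {n : ℕ} {G : Set (EuclideanSpace ℝ (Fin n))} (h : Body G) (hs : ∀ x ∈ G, -x ∈ G) :
    Pool.Agent.Rog.SymBody G := ⟨h.1, h.2.1, h.2.2, hs⟩

/-- **Random simplices and partition numbers.**  Let `F` be any convex body of `ℝ ^ n` and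
`K = (F - F) / 2`.  Let `n, k ≥ 2`, `m, Θ ≥ 1` and `2 · 2 ^ (k m) · k m · log (2 Θ) ≤ n`.  If the
`m`-tuples `w` of points of `F` with `‖∑ c_i w_i‖_K ≥ (1 - 4 / 2 ^ k) ∑ |c_i|` for all `c` with
`∑ c_i = 0` fill at most the proportion `1 / (4 Θ ^ (k m))` of `F ^ m`, then for every norm (unit
ball `G`) the body `F` is a union of at most `1 + (e 2 ^ n / Θ) n log (8 n + 1)` sets of smaller
diameter. -/
theorem result (n k m : ℕ) (Θ : ℝ) (F G : Set (EuclideanSpace ℝ (Fin n))) (hn : 2 ≤ n)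
    (hk : 2 ≤ k) (hm : 1 ≤ m) (hΘ : 1 ≤ Θ)
    (hcond : 2 * 2 ^ (k * m) * (k * m) * Real.log (2 * Θ) ≤ n)
    (hF : Body F) (hG : Body G) (hGs : ∀ x ∈ G, -x ∈ G)
    (hA : volume.real (Simplices F m (1 - 4 / 2 ^ k)) ≤
      1 / (4 * Θ ^ (k * m)) * volume.real F ^ m) :
    ∃ N : ℕ, (N : ℝ) ≤ 1 + Real.exp 1 * 2 ^ n / Θ * (n * Real.log (8 * n + 1)) ∧
      Parts F G N :=
  Pool.Agent.PNR.top n k m Θ F G hn hk hm hΘ hcond (body hF) (ball hG hGs) hA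

/-- Consequence: the difference body contains the ellipsoid `‖T x‖ ≤ 1` and all but a polynomially
small part of the volume of `F` lies in `‖T x - v‖ ≤ R`, `R ≤ (1 / 12) (log n) ^ (1 / 2)`. -/
theorem ellipsoid : ∃ n0 : ℕ, ∀ n : ℕ, n0 ≤ n → ∀ F G : Set (EuclideanSpace ℝ (Fin n)),
    Body F → Body G → (∀ x ∈ G, -x ∈ G) →
    ∀ (T : EuclideanSpace ℝ (Fin n) →ₗ[ℝ] EuclideanSpace ℝ (Fin n))
      (v : EuclideanSpace ℝ (Fin n)) (R : ℝ), 0 ≤ R → R ≤ 1 / 12 * √(Real.log n) →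
    (∀ x, ‖T x‖ ≤ 1 → ∃ y ∈ F, ∃ z ∈ F, x = y - z) →
    volume.real {x | x ∈ F ∧ R < ‖T x - v‖} ≤
      (n : ℝ) ^ (-(200 * (1 + R ^ 2))) * volume.real F →
    Parts F G (2 ^ n - 1) := by
  obtain ⟨n0, h⟩ := Pool.Agent.PNR.corB
  refine ⟨n0, fun n hn F G hF hG hGs T v R hR hRL hT hV => ?_⟩
  exact h n hn F G (body hF) (ball hG hGs) T v R hR hRL hT hV

/-- Consequence: the same with a fixed `R` and an exponentially small exceptional part. -/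
theorem ellipsoid_fixed (R ε : ℝ) (hR : 0 ≤ R) (hε : 0 < ε) : ∃ η : ℝ, 0 < η ∧ η < 1 ∧
    ∃ n0 : ℕ, ∀ n : ℕ, n0 ≤ n →
    ∀ F G : Set (EuclideanSpace ℝ (Fin n)), Body F → Body G → (∀ x ∈ G, -x ∈ G) →
    ∀ (T : EuclideanSpace ℝ (Fin n) →ₗ[ℝ] EuclideanSpace ℝ (Fin n))
      (v : EuclideanSpace ℝ (Fin n)),
    (∀ x, ‖T x‖ ≤ 1 → ∃ y ∈ F, ∃ z ∈ F, x = y - z) →
    volume.real {x | x ∈ F ∧ R < ‖T x - v‖} ≤ Real.exp (-(ε * n)) * volume.real F →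
    ∃ M : ℕ, (M : ℝ) ≤ (2 - η) ^ n ∧ Parts F G M := by
  obtain ⟨η, hη, hη1, n0, h⟩ := Pool.Agent.PNR.corC R ε hR hε
  refine ⟨η, hη, hη1, n0, fun n hn F G hF hG hGs T v hT hV => ?_⟩
  exact h n hn F G (body hF) (ball hG hGs) T v hT hV

/-- Consequence: the difference body is uniformly far from containing copies of `ℓ_1 ^ N`. -/
theorem nontrivial_type (N : ℕ) (δ : ℝ) (hN : 1 ≤ N) (hδ : 0 < δ) (hδ1 : δ < 1) : ∃ η : ℝ,
    0 < η ∧ η < 1 ∧ ∃ n0 : ℕ, ∀ n : ℕ, n0 ≤ n →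
    ∀ F G : Set (EuclideanSpace ℝ (Fin n)), Body F → Body G → (∀ x ∈ G, -x ∈ G) →
    (∀ x y : Fin N → EuclideanSpace ℝ (Fin n), (∀ i, x i ∈ F) → (∀ i, y i ∈ F) →
      ∃ s : Fin N → ℝ, (∀ i, s i = 1 ∨ s i = -1) ∧ ∃ u ∈ F, ∃ v ∈ F,
        ∑ i, s i • (x i - y i) = (δ * N) • (u - v)) →
    ∃ M : ℕ, (M : ℝ) ≤ (2 - η) ^ n ∧ Parts F G M := by
  obtain ⟨η, hη, hη1, n0, h⟩ := Pool.Agent.PNR.corE N δ hN hδ hδ1
  refine ⟨η, hη, hη1, n0, fun n hn F G hF hG hGs hz => ?_⟩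
  refine h n hn F G (body hF) (ball hG hGs) ?_
  intro z hzK
  have h1 : ∀ i, ∃ x ∈ F, ∃ y ∈ F, z i = x - y := by
    intro i
    obtain ⟨_, ⟨x, hx, y, hy, rfl⟩, hz'⟩ := hzK i
    refine ⟨x, hx, y, hy, ?_⟩
    simp only [smul_smul] at hz'
    norm_num at hz'
    exact hz'.symm
  choose x hx y hy hxy using h1
  obtain ⟨s, hs, u, hu, v, hv, huv⟩ := hz x y hx hy
  refine ⟨s, hs, (1 / 2 : ℝ) • (u - v), ⟨u, hu, v, hv, rfl⟩, ?_⟩
  simp only [hxy]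
  rw [huv, smul_smul]
  congr 1
  ring

end Pool.Agent.Results.MP_c15520_co.RandomSimplices
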