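import Mathlib
import Pool.Agent.HD3.Final

/-!
# Partition numbers in normed 3-spaces: every convex body splits into 8 parts of smaller diameter
-/

set_option autoImplicit false

open Set

namespace Pool.Agent.Results.MP_c15520_co.ThreeSpace

/-- Eight translates of the interior, in coordinates. -/
lemma cover_pi (F : Set (Fin 3 → ℝ)) (hF : IsCompact F) (hc : Convex ℝ F)
    (hi : (interior F).Nonempty) :
    ∃ t : Fin 8 → (Fin 3 → ℝ), F ⊆ ⋃ i, (fun x => t i + x) '' interior F := by
  set e : EuclideanSpace ℝ (Fin 3) ≃L[ℝ] (Fin 3 → ℝ) := EuclideanSpace.equiv (Fin 3) ℝ with he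
  have h1 : IsCompact (e.symm '' F) := hF.image e.symm.continuous
  have h2 : Convex ℝ (e.symm '' F) :=
    hc.linear_image (e.symm : (Fin 3 → ℝ) →L[ℝ] EuclideanSpace ℝ (Fin 3)).toLinearMap
  have h3 : interior (e.symm '' F) = e.symm '' interior F :=
    (e.symm.toHomeomorph.image_interior F).symm
  have h4 : (interior (e.symm '' F)).Nonempty := by rw [h3]; exact hi.image _
  obtain ⟨t, ht⟩ := Pool.Agent.HD3.all (e.symm '' F) h1 h2 h4
  refine ⟨fun i => e (t i), ?_⟩
  intro x hx
  have h5 := ht (mem_image_of_mem e.symm hx)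
  rw [mem_iUnion] at h5
  obtain ⟨i, y, hy, hxy⟩ := h5
  rw [h3] at hy
  obtain ⟨z, hz, rfl⟩ := hy
  rw [mem_iUnion]
  refine ⟨i, z, hz, ?_⟩
  have h6 : e (t i + e.symm z) = e (e.symm x) := by
    have h7 : t i + e.symm z = e.symm x := hxy
    rw [h7]
  simpa using h6

/-- For every norm on 3-space (unit ball `G`) and every convex body `F` in 3-space, `F` splits
into 8 parts of diameter smaller than the diameter of `F`. -/
theorem result (G F : Set (Fin 3 → ℝ))
    (hG : IsCompact G) (hGc : Convex ℝ G) (hGi : (interior G).Nonempty) (hGs : ∀ x ∈ G, -x ∈ G)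
    (hF : IsCompact F) (hFc : Convex ℝ F) (hFi : (interior F).Nonempty) :
    ∃ A : Fin (2 ^ 3) → Set (Fin 3 → ℝ), (⋃ i, A i) = F ∧
      ∀ i, ∃ c : ℝ,
        c < sSup ((fun p : (Fin 3 → ℝ) × (Fin 3 → ℝ) => gauge G (p.1 - p.2)) '' (F ×ˢ F)) ∧
        ∀ x ∈ A i, ∀ y ∈ A i, gauge G (x - y) ≤ c := by
  classical
  -- `0` lies in the interior of `G`
  have h0 : G ∈ nhds (0 : Fin 3 → ℝ) := by
    obtain ⟨a, ha⟩ := hGi
    have hna : -a ∈ interior G := by
      have h1 : (-G : Set (Fin 3 → ℝ)) = G := by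
        ext x
        constructor
        · intro hx
          have h2 := hGs _ (Set.mem_neg.1 hx)
          simpa using h2
        · intro hx
          exact Set.mem_neg.2 (hGs x hx)
      have h2 : interior (-G : Set (Fin 3 → ℝ)) = -interior G :=
        ((Homeomorph.neg (Fin 3 → ℝ)).preimage_interior G).symm
      rw [h1] at h2
      rw [h2]
      simpa using ha
    have h3 : (0 : Fin 3 → ℝ) ∈ interior G := by
      have h4 := hGc.interior ha hna (by norm_num : (0 : ℝ) ≤ 1 / 2)
        (by norm_num : (0 : ℝ) ≤ 1 / 2) (by norm_num)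
      simpa using h4
    exact mem_interior_iff_mem_nhds.1 h3
  have hcont : Continuous (gauge G) := continuous_gauge hGc h0
  set f : (Fin 3 → ℝ) × (Fin 3 → ℝ) → ℝ := fun p => gauge G (p.1 - p.2) with hf
  have hfc : Continuous f := hcont.comp (continuous_fst.sub continuous_snd)
  set D : ℝ := sSup (f '' (F ×ˢ F)) with hD
  have hbd : BddAbove (f '' (F ×ˢ F)) := ((hF.prod hF).image hfc).bddAbove
  have hle : ∀ x ∈ F, ∀ y ∈ F, gauge G (x - y) ≤ D := fun x hx y hy =>
    le_csSup hbd ⟨(x, y), ⟨hx, hy⟩, rfl⟩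
  -- the diameter is positive
  have hDpos : 0 < D := by
    obtain ⟨a, ha⟩ := hFi
    obtain ⟨ε, hε, hball⟩ := Metric.isOpen_iff.1 isOpen_interior a ha
    set v : Fin 3 → ℝ := fun _ => ε / 2 with hv
    have hvn : ‖v‖ ≤ ε / 2 := by
      rw [pi_norm_le_iff_of_nonneg (by positivity)]
      intro i
      rw [hv, Real.norm_eq_abs, abs_of_pos (by positivity)]
    have h1 : a + v ∈ F := interior_subset (hball (by
      rw [Metric.mem_ball, dist_eq_norm]
      have : a + v - a = v := by abel
      rw [this]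
      linarith))
    have h2 := hle _ h1 a (interior_subset ha)
    have h3 : a + v - a = v := by abel
    rw [h3] at h2
    refine lt_of_lt_of_le ?_ h2
    have hv0 : v ≠ 0 := by
      intro h
      have := congrFun h 0
      rw [hv] at this
      simp only [Pi.zero_apply] at this
      linarith
    rw [gauge_pos (absorbent_nhds_zero h0) ((NormedSpace.isVonNBounded_iff ℝ).2 hG.isBounded)]
    exact hv0
  obtain ⟨t, ht⟩ := cover_pi F hF hFc hFi
  have hopen : ∀ i : Fin 8, IsOpen ((fun x => t i + x) '' interior F) := fun i =>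
    (Homeomorph.addLeft (t i)).isOpenMap _ isOpen_interior
  obtain ⟨C, hC1, hC2, hC3⟩ := hF.finite_compact_cover (Finset.univ : Finset (Fin 8))
    (fun i => (fun x => t i + x) '' interior F) (fun i _ => hopen i) (by simpa using ht)
  refine ⟨fun i => C i, by simpa using hC3.symm, ?_⟩
  intro i
  by_cases hne : (C i).Nonempty
  · obtain ⟨p, hp, hmax⟩ := ((hC1 i).prod (hC1 i)).exists_isMaxOn (hne.prod hne) hfc.continuousOn
    refine ⟨f p, ?_, fun x hx y hy => hmax (a := (x, y)) ⟨hx, hy⟩⟩
    obtain ⟨x', hx', hx''⟩ := hC2 i hp.1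
    obtain ⟨y', hy', hy''⟩ := hC2 i hp.2
    have hxy : p.1 - p.2 = x' - y' := by
      rw [← hx'', ← hy'']; simp
    -- push `x'` a little further
    have hlin : Filter.Tendsto (fun s : ℝ => x' + s • (x' - y')) (nhds 0) (nhds x') := by
      have h1 : Continuous (fun s : ℝ => x' + s • (x' - y')) := by fun_prop
      have h2 := h1.tendsto 0
      simpa using h2
    have hev := hlin.eventually (isOpen_interior.mem_nhds hx')
    obtain ⟨δ, hδ, hδ'⟩ := Metric.eventually_nhds_iff.1 hev
    have h4 : x' + (δ / 2) • (x' - y') ∈ F := interior_subset (hδ' (by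
      rw [Real.dist_eq, sub_zero, abs_of_pos (by positivity)]
      linarith))
    have h5 := hle _ h4 y' (interior_subset hy')
    have h6 : x' + (δ / 2) • (x' - y') - y' = (1 + δ / 2) • (x' - y') := by
      rw [add_smul, one_smul]; abel
    rw [h6, gauge_smul_of_nonneg (by positivity), smul_eq_mul] at h5
    show gauge G (p.1 - p.2) < D
    rw [hxy]
    have h7 : 0 ≤ gauge G (x' - y') := gauge_nonneg _
    rcases h7.lt_or_eq with h8 | h8
    · nlinarith
    · rw [← h8]; exact hDpos
  · refine ⟨0, hDpos, fun x hx => (hne ⟨x, hx⟩).elim⟩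

end Pool.Agent.Results.MP_c15520_co.ThreeSpace
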